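import Mathlib
import Pool.Agent.W504.YM.Fin

/-!
# Lattice Yang-Mills theory in the Hamiltonian form: a gap uniform in the volume and in `N`

Space is the periodic cubic lattice `(ℤ/l)^D`, the gauge group `G` is a closed connected subgroup
of `U(N)` whose Lie algebra has trivial centre, and the Hamiltonian is the one of Kogut and
Susskind, `H = - (g ^ 2 / 2) Δ + g ^ (-2) ∑_p Re tr (1 - U_p)` on functions on `G ^ links`.
`K > 0` is a lower bound of the Ricci curvature of `G`. If `g ^ 4 K ^ 2 > 128 (D - 1)`, then for all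
volumes the second energy level of `H`, on all functions and hence also on the gauge invariant ones,
is at least `E₀ + (g ^ 2 / 4) (K + √(K ^ 2 - 128 (D - 1) / g ^ 4))`. For `G = SU(N)` one has
`K = N / 2`; the condition is `(g ^ 2 N) ^ 2 > 512 (D - 1)`, a condition on the coupling of
't Hooft, and the gap is at least `g ^ 2 N / 8`, uniformly in the volume and in `N`.
-/

open MeasureTheory Matrix
open scoped ContDiff Matrix.Norms.Frobenius

namespace Pool.Agent.Results.MP_7f377f_mp.StrongCouplingGap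

set_option linter.unusedSectionVars false

noncomputable section

/-- Complex `N × N` matrices. -/
abbrev Mt (N : ℕ) := Matrix (Fin N) (Fin N) ℂ

/-- The unitary group `U(N)`. -/
abbrev UU (N : ℕ) := Matrix.unitaryGroup (Fin N) ℂ

/-- The matrix of an element of a subgroup of `U(N)`. -/
def mt {N : ℕ} {G : Subgroup (UU N)} (g : G) : Mt N := ((g : UU N) : Mt N)

/-- Links of the periodic lattice `(ℤ/l)^D`: base point and direction. -/
abbrev Link (D l : ℕ) := (Fin D → ZMod l) × Fin D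

/-- Unit vector of the lattice in direction `i`. -/
def unitv {D l : ℕ} (i : Fin D) : Fin D → ZMod l := Pi.single i 1

/-- An orthonormal basis `X` of the Lie algebra of `G`, that is of the real space of all matrices `Y`
with `exp (t Y) ∈ G` for all real `t`, with the scalar product `Re tr (Y* Z)`; `ex a t` is the
element `exp (t X_a)` of `G`. -/
structure LieBasis {N : ℕ} (G : Subgroup (UU N)) (n : ℕ) where
  X : Fin n → Mt N
  ex : Fin n → ℝ → G
  ex_eq : ∀ a t, mt (ex a t) = NormedSpace.exp (t • X a)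
  orth : ∀ a b, (trace ((X a)ᴴ * X b)).re = if a = b then 1 else 0
  full : ∀ Y : Mt N, (∀ t : ℝ, ∃ g : G, mt g = NormedSpace.exp (t • Y)) →
    Y ∈ Submodule.span ℝ (Set.range X)

section

variable {N n D l : ℕ} {G : Subgroup (UU N)}

/-- The product of the link variables around the plaquette at `x` in the directions `i`, `j`. -/
def plaq (U : Link D l → G) (x : Fin D → ZMod l) (i j : Fin D) : G :=
  U (x, i) * U (x + unitv i, j) * (U (x + unitv j, i))⁻¹ * (U (x, j))⁻¹

/-- The magnetic energy `∑_p Re tr (1 - U_p)`, the sum over the plaquettes. -/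
def magnetic [NeZero l] (U : Link D l → G) : ℝ :=
  ∑ x : Fin D → ZMod l, ∑ i : Fin D, ∑ j : Fin D,
    if i < j then (trace (1 - mt (plaq U x i j))).re else 0

/-- Smooth functions of the link variables: restrictions of smooth functions of the matrices. -/
def IsSmooth [NeZero l] (F : (Link D l → G) → ℝ) : Prop :=
  ∃ f : (Link D l → Mt N) → ℝ, ContDiff ℝ ∞ f ∧ ∀ U, F U = f fun e => mt (U e)

/-- The derivative of `F` at `U` when the variable of the link `e` moves as `exp (t X_a) U_e`. -/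
def dlink (B : LieBasis G n) (e : Link D l) (a : Fin n) (F : (Link D l → G) → ℝ)
    (U : Link D l → G) : ℝ :=
  deriv (fun t => F (Function.update U e (B.ex a t * U e))) 0

/-- The energy `⟨F, H F⟩` of a smooth function `F`, as a quadratic form, `μ` being the Haar measure:
`(g ^ 2 / 2) ∑_{e, a} ∫ (D_{e, a} F) ^ 2 + g ^ (-2) ∫ (∑_p Re tr (1 - U_p)) F ^ 2`. -/
def energy [NeZero l] [MeasurableSpace G] (B : LieBasis G n) (μ : Measure G) (g : ℝ)
    (F : (Link D l → G) → ℝ) : ℝ :=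
  g ^ 2 / 2 * (∑ e : Link D l, ∑ a : Fin n,
    ∫ U, (dlink B e a F U) ^ 2 ∂(Measure.pi fun _ : Link D l => μ)) +
  1 / g ^ 2 * ∫ U, magnetic U * F U ^ 2 ∂(Measure.pi fun _ : Link D l => μ)

/-- Gauge transformation of the link variables. -/
def gauge (γ : (Fin D → ZMod l) → G) (U : Link D l → G) : Link D l → G :=
  fun e => γ e.1 * U e * (γ (e.1 + unitv e.2))⁻¹

/-- Gauge invariant functions. -/
def GaugeInv (F : (Link D l → G) → ℝ) : Prop := ∀ γ U, F (gauge γ U) = F U

/-- A state: a smooth gauge invariant function of the link variables with `∫ Ψ ^ 2 = 1`. -/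
structure IsState [NeZero l] [MeasurableSpace G] (μ : Measure G)
    (Ψ : (Link D l → G) → ℝ) : Prop where
  smooth : IsSmooth Ψ
  inv : GaugeInv Ψ
  norm : ∫ U, Ψ U ^ 2 ∂(Measure.pi fun _ : Link D l => μ) = 1

/-- The ground state energy: the infimum of the energies of the states. -/
def groundEnergy (D l : ℕ) [NeZero l] [MeasurableSpace G] (B : LieBasis G n) (μ : Measure G)
    (g : ℝ) : ℝ :=
  sInf {E : ℝ | ∃ Ψ : (Link D l → G) → ℝ, IsState μ Ψ ∧ energy B μ g Ψ = E}

/-- `K` is a lower bound of the Ricci curvature of the bi-invariant metric of `G` given by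
`Re tr (Y* Z)`: as `Ric (Y, Y) = (1 / 4) ∑_a ‖[X_a, Y]‖ ^ 2`, this is
`4 K ‖Y‖ ^ 2 ≤ ∑_a ‖[X_a, Y]‖ ^ 2` for all `Y` in the Lie algebra, with `‖Z‖ ^ 2 = Re tr (Z* Z)`. -/
def Curved (B : LieBasis G n) (K : ℝ) : Prop :=
  ∀ Y ∈ Submodule.span ℝ (Set.range B.X), 4 * K * (trace (Yᴴ * Y)).re ≤
    ∑ a, (trace ((B.X a * Y - Y * B.X a)ᴴ * (B.X a * Y - Y * B.X a))).re

end

open Pool.Agent.H906R3

variable {N n D l : ℕ} {G : Subgroup (UU N)}

/-- The same data in the form used by the helper files. -/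
def fm (B : LieBasis G n) : YM.Frame G n where
  X := B.X
  ex := B.ex
  ex_eq := B.ex_eq
  orth := B.orth
  full := B.full

/-- The abstract data. -/
def ld (B : LieBasis G n) : YM.LD G N n := (fm B).toLD

lemma shift_eq (B : LieBasis G n) (e : Link D l) (a : Fin n) (t : ℝ) (U : Link D l → G) :
    (ld B).shift e a t U = Function.update U e (B.ex a t * U e) := by
  funext e'
  unfold YM.LD.shift
  by_cases h : e' = e
  · subst h
    rw [Pi.mul_apply, Pi.mulSingle_eq_same, Function.update_self]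
    rfl
  · rw [Pi.mul_apply, Pi.mulSingle_eq_of_ne h, one_mul, Function.update_of_ne h]

lemma dlink_eq [NeZero l] (B : LieBasis G n) (e : Link D l) (a : Fin n)
    (F : YM.Sm (ld B) (Link D l)) (U : Link D l → G) :
    dlink B e a F.1 U = ((ld B).Dv (e, a) F).1 U := by
  rw [YM.Dv_apply]
  unfold dlink YM.LD.dF
  simp only [shift_eq]

lemma magnetic_eq [NeZero l] (B : LieBasis G n) (U : Link D l → G) :
    magnetic U = (YM.VT (ld B) D l).1 U := by
  have h1 := YM.VT_apply (L := ld B) U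
  have h2 : (YM.VT (ld B) D l).1 U = (ld B).ev U (YM.VT (ld B) D l) := rfl
  rw [h2, h1]
  have h3 : ∑ p : YM.Pl D l, YM.we (ld B) (YM.plqT U p.1.1 p.1.2.1 p.1.2.2) =
      ∑ p ∈ (Finset.univ.filter fun p : (Fin D → ZMod l) × Fin D × Fin D => p.2.1 < p.2.2),
        YM.we (ld B) (YM.plqT U p.1 p.2.1 p.2.2) := by
    rw [Finset.sum_subtype (p := fun p : (Fin D → ZMod l) × Fin D × Fin D => p.2.1 < p.2.2)]
    intro p; simp
  rw [h3, Finset.sum_filter, Fintype.sum_prod_type]
  unfold magnetic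
  refine Finset.sum_congr rfl fun x _ => ?_
  rw [Fintype.sum_prod_type]
  rfl

lemma inv_iff [NeZero l] (B : LieBasis G n) (u : YM.Sm (ld B) (Link D l)) :
    YM.Inv u ↔ GaugeInv u.1 := by
  constructor
  · intro h γ U
    exact congrArg (fun v : YM.Sm (ld B) (Link D l) => v.1 U) (h γ)
  · intro h γ
    exact YM.ev_ext fun U => h γ U

/-- A Haar probability measure is invariant under right multiplications. -/
lemma right_inv {H : Type*} [Group H] [TopologicalSpace H] [IsTopologicalGroup H]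
    [CompactSpace H] [MeasurableSpace H] [BorelSpace H] (μ : Measure H)
    [IsProbabilityMeasure μ] [μ.IsHaarMeasure] : μ.IsMulRightInvariant := by
  refine ⟨fun g => ?_⟩
  have h1 : IsProbabilityMeasure (Measure.map (fun x => x * g) μ) :=
    Measure.isProbabilityMeasure_map (measurable_mul_const g).aemeasurable
  exact Measure.isHaarMeasure_eq_of_isProbabilityMeasure _ _

lemma enr_smul {A : Type*} [CommRing A] [Algebra ℝ A] {P J : Type*} [Fintype J]
    {S : YM.Fn A P J} (g : ℝ) (V : A) (E0 c : ℝ) (u : A) :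
    S.enr g V E0 (c • u) (c • u) = c ^ 2 * S.enr g V E0 u u := by
  unfold YM.Fn.enr
  rw [YM.HH_smul, smul_comm E0 c, ← smul_sub, smul_mul_assoc, mul_smul_comm, map_smul, map_smul,
    smul_eq_mul, smul_eq_mul]
  ring

section bridge

variable [CompactSpace G] [SecondCountableTopology G] [NeZero l]
  [MeasurableSpace G] [BorelSpace G] (μ : Measure G) [IsProbabilityMeasure μ] [μ.IsHaarMeasure]
  (B : LieBasis G n) (g : ℝ)

lemma energy_eq (F : YM.Sm (ld B) (Link D l)) : energy B μ g F.1 =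
    g ^ 2 / 2 * (ld B).I μ (YM.Gam (ld B).Dv F F) +
      1 / g ^ 2 * (ld B).I μ (YM.VT (ld B) D l * (F * F)) := by
  unfold energy
  congr 1
  · congr 1
    unfold YM.Gam
    rw [map_sum]
    refine Eq.trans ?_ (Fintype.sum_prod_type fun j : Link D l × Fin n =>
      (ld B).I μ ((ld B).Dv j F * (ld B).Dv j F)).symm
    refine Finset.sum_congr rfl fun e _ => Finset.sum_congr rfl fun a _ => ?_
    rw [YM.I_apply]
    refine integral_congr_ae (Filter.Eventually.of_forall fun U => ?_)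
    show (dlink B e a F.1 U) ^ 2 = ((ld B).Dv (e, a) F).1 U * ((ld B).Dv (e, a) F).1 U
    rw [dlink_eq, sq]
  · congr 1
    rw [YM.I_apply]
    refine integral_congr_ae (Filter.Eventually.of_forall fun U => ?_)
    show magnetic U * F.1 U ^ 2 = (YM.VT (ld B) D l).1 U * (F.1 U * F.1 U)
    rw [magnetic_eq B, sq]

lemma norm_eq (F : YM.Sm (ld B) (Link D l)) :
    ∫ U, F.1 U ^ 2 ∂(Measure.pi fun _ : Link D l => μ) = (ld B).I μ (F * F) := by
  rw [YM.I_apply]
  refine integral_congr_ae (Filter.Eventually.of_forall fun U => ?_)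
  show F.1 U ^ 2 = F.1 U * F.1 U
  rw [sq]

lemma enr_eq' (E0 : ℝ) (F : YM.Sm (ld B) (Link D l)) :
    (YM.fnE (ld B) μ (Link D l)).enr g (YM.VT (ld B) D l) E0 F F =
      energy B μ g F.1 - E0 * (ld B).I μ (F * F) := by
  rw [energy_eq]
  exact (YM.fnE (ld B) μ (Link D l)).enr_eq g (YM.VT (ld B) D l) E0 F F

lemma energy_nonneg (F : YM.Sm (ld B) (Link D l)) : 0 ≤ energy B μ g F.1 := by
  have h1 : (YM.fnE (ld B) μ (Link D l)).enr g (YM.VT (ld B) D l) 0 F F =
    energy B μ g F.1 := by rw [enr_eq', zero_mul, sub_zero]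
  rw [energy_eq]
  have h2 : 0 ≤ (ld B).I μ (YM.Gam (ld B).Dv F F) := by
    unfold YM.Gam
    rw [map_sum]
    exact Finset.sum_nonneg fun j _ => YM.I_sq_nonneg μ _
  have h3 : 0 ≤ (ld B).I μ (YM.VT (ld B) D l * (F * F)) := YM.I_nonneg μ fun U => by
    rw [map_mul, map_mul, YM.VT_apply]
    exact mul_nonneg (Finset.sum_nonneg fun _ _ => YM.we_nonneg _) (mul_self_nonneg _)
  positivity

lemma energy_nonneg' {F : (Link D l → G) → ℝ} (hF : IsSmooth F) : 0 ≤ energy B μ g F :=
  energy_nonneg μ B g ⟨F, hF⟩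

lemma ground_bdd : BddBelow {E : ℝ | ∃ Ψ : (Link D l → G) → ℝ, IsState μ Ψ ∧
    energy B μ g Ψ = E} := by
  refine ⟨0, ?_⟩
  rintro E ⟨Ψ, hΨ, rfl⟩
  exact energy_nonneg' μ B g hΨ.smooth

lemma ground_nonempty : {E : ℝ | ∃ Ψ : (Link D l → G) → ℝ, IsState μ Ψ ∧
    energy B μ g Ψ = E}.Nonempty := by
  refine ⟨_, fun _ => 1, ⟨⟨fun _ => 1, contDiff_const, fun _ => rfl⟩, fun _ _ => rfl, ?_⟩, rfl⟩
  simp

lemma ground_nonneg : 0 ≤ groundEnergy D l B μ g := by
  refine Real.sInf_nonneg ?_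
  rintro E ⟨Ψ, hΨ, rfl⟩
  exact energy_nonneg' μ B g hΨ.smooth

lemma state_of (u : YM.Sm (ld B) (Link D l)) (hu : YM.Inv u) (h1 : (ld B).I μ (u * u) = 1) :
    IsState μ u.1 :=
  ⟨u.2, (inv_iff B u).1 hu, by rw [norm_eq]; exact h1⟩

lemma ground_pos (u : YM.Sm (ld B) (Link D l)) (hu : YM.Inv u) :
    0 ≤ (YM.fnE (ld B) μ (Link D l)).enr g (YM.VT (ld B) D l) (groundEnergy D l B μ g) u u := by
  obtain ⟨Z, hZ⟩ : ∃ Z : ℝ, Z = (ld B).I μ (u * u) := ⟨_, rfl⟩
  have hZ0 : 0 ≤ Z := by rw [hZ]; exact YM.I_sq_nonneg μ _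
  rcases hZ0.eq_or_lt with h0 | h0
  · rw [enr_eq', ← hZ, ← h0, mul_zero, sub_zero]
    exact energy_nonneg μ B g u
  · obtain ⟨c, hc⟩ : ∃ c : ℝ, c = (Real.sqrt Z)⁻¹ := ⟨_, rfl⟩
    have hc2 : c ^ 2 * Z = 1 := by
      rw [hc, inv_pow, Real.sq_sqrt h0.le, inv_mul_cancel₀ h0.ne']
    have hn1 : (ld B).I μ (c • u * (c • u)) = 1 := by
      rw [smul_mul_assoc, mul_smul_comm, map_smul, map_smul, smul_eq_mul, smul_eq_mul, ← hZ,
        ← hc2]
      ring
    have h1 : groundEnergy D l B μ g ≤ energy B μ g (c • u).1 :=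
      csInf_le (ground_bdd μ B g) ⟨_, state_of μ B (c • u) (hu.smul c) hn1, rfl⟩
    have h2 := enr_eq' μ B g (groundEnergy D l B μ g) (c • u)
    rw [hn1, mul_one] at h2
    have h3 : 0 ≤ (YM.fnE (ld B) μ (Link D l)).enr g (YM.VT (ld B) D l)
        (groundEnergy D l B μ g) (c • u) (c • u) := by rw [h2]; linarith
    rw [enr_smul] at h3
    have hc0 : 0 < c ^ 2 := by
      rcases (sq_nonneg c).eq_or_lt with h | h
      · rw [← h, zero_mul] at hc2; exact absurd hc2 zero_ne_one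
      · exact h
    exact (mul_nonneg_iff_of_pos_left hc0).1 h3

end bridge

/-- The gap of the Kogut-Susskind Hamiltonian, uniformly in the volume: whenever all unit vectors
of the plane spanned by two orthonormal smooth functions have energy at most `E`, then
`E ≥ E₀ + (g ^ 2 / 4) (K + √(K ^ 2 - 128 (D - 1) / g ^ 4))`. -/
theorem result {N n D : ℕ} (hN : 1 ≤ N) (hD : 1 ≤ D) (G : Subgroup (UU N))
    (hG : IsClosed (G : Set (UU N))) [MeasurableSpace G] [BorelSpace G] (μ : Measure G)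
    [IsProbabilityMeasure μ] [μ.IsHaarMeasure] (B : LieBasis G n) (K : ℝ) (hK : 0 < K)
    (hGK : (ConnectedSpace G ∧ Curved B K) ∨
      ((∀ u : UU N, u ∈ G ↔ (u : Mt N).det = 1) ∧ K = N / 2))
    (g : ℝ) (hg : 0 < g) (hgK : 128 * ((D : ℝ) - 1) < g ^ 4 * K ^ 2) (l : ℕ) [NeZero l]
    (Ψ Φ : (Link D l → G) → ℝ) (hΨ : IsSmooth Ψ) (hΦ : IsSmooth Φ)
    (h11 : ∫ U, Ψ U ^ 2 ∂(Measure.pi fun _ : Link D l => μ) = 1)
    (h22 : ∫ U, Φ U ^ 2 ∂(Measure.pi fun _ : Link D l => μ) = 1)
    (h12 : ∫ U, Ψ U * Φ U ∂(Measure.pi fun _ : Link D l => μ) = 0)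
    (E : ℝ) (hE : ∀ a b : ℝ, a ^ 2 + b ^ 2 = 1 →
      energy B μ g (fun U => a * Ψ U + b * Φ U) ≤ E) :
    groundEnergy D l B μ g +
      g ^ 2 / 4 * (K + Real.sqrt (K ^ 2 - 128 * ((D : ℝ) - 1) / g ^ 4)) ≤ E := by
  have : CompactSpace G := by
    have h1 : IsCompact (G : Set (UU N)) := hG.isCompact
    exact isCompact_iff_compactSpace.1 h1
  have h00 : SecondCountableTopology (UU N) := TopologicalSpace.Subtype.secondCountableTopology _
  have : SecondCountableTopology G := TopologicalSpace.Subtype.secondCountableTopology _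
  obtain ⟨hc, r, hr⟩ : W504.YM.Curv (ld B) K ∧ ∃ r, W504.YM.Cn (ld B) r := by
    rcases hGK with ⟨h1, h2⟩ | ⟨h1, h2⟩
    · exact ⟨W504.YM.curv_of (fm B) h2, W504.YM.Cn_conn (fm B) hG⟩
    · refine ⟨?_, W504.YM.Cn_su h1 (fm B) hN⟩
      rw [h2]
      exact W504.YM.curv_su h1 (fm B)
  refine W504.YM.torus_gap_sqrt (μ := μ) (L := ld B) (D := D) (l := l) hK hc hr hD hg hN hgK
    (ground_nonneg μ B g) (fun f hf => ?_) (Ψ := ⟨Ψ, hΨ⟩) (Φ := ⟨Φ, hΦ⟩) ?_ ?_ ?_
    (fun a b hab => ?_)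
  · have h1 := ground_pos μ B g f hf
    rw [enr_eq', energy_eq] at h1
    unfold W504.YM.en
    linarith
  · rw [← norm_eq]; exact h11
  · rw [← norm_eq]; exact h22
  · rw [YM.I_apply]; exact h12
  · have h1 := hE a b hab
    have h2 : energy B μ g (fun U => a * Ψ U + b * Φ U) = energy B μ g
        (a • (⟨Ψ, hΨ⟩ : YM.Sm (ld B) (Link D l)) + b • ⟨Φ, hΦ⟩).1 := rfl
    rw [h2, energy_eq] at h1
    exact h1

end

end Pool.Agent.Results.MP_7f377f_mp.StrongCouplingGap
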